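import Mathlib
import Pool.Agent.Helper85_Leo.Defs
import Pool.Agent.Leo3.Stmts

/-!
# Leopoldt's conjecture at 3 for a positive proportion of totally real quartic fields: interfaces

Definitions and module statements of the squad `leo4` (MP_5f2860_nt).  Paper: PAPER_LEO4.md.
-/

set_option autoImplicit false

open NumberField IsDedekindDomain Module Filter Topology MeasureTheory
open Pool.Agent.Helper85_Leo Pool.Agent.Leo3

namespace Pool.Agent.Leo4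

/-- The ring `ℤ[φ]`, `φ² = φ + 1`: the ring of integers of `ℚ(√5)`. -/
abbrev O : Type := QuadraticAlgebra ℤ 1 1

/-- The value at `φ = f` (a ring homomorphism if `f² = f + 1`). -/
def ev {A : Type} [CommRing A] (f : A) (x : O) : A := (x.re : A) + (x.im : A) * f

/-- The golden ratio. -/
noncomputable abbrev g : ℝ := Real.goldenRatio

/-- The two real embeddings of `O`. -/
noncomputable def e1 (x : O) : ℝ := ev Real.goldenRatio x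

noncomputable def e2 (x : O) : ℝ := ev Real.goldenConj x

/-- The norm. -/
def nm (x : O) : ℤ := x.re ^ 2 + x.re * x.im - x.im ^ 2

/-- `φ`. -/
def phi : O := ⟨0, 1⟩

/-- balanced pairs of reals: `x, y ≥ 0`, ratio between `g⁻²` and `g²`. -/
def Bal (x y : ℝ) : Prop := 0 ≤ x ∧ 0 ≤ y ∧ x ≤ g ^ 2 * y ∧ y ≤ g ^ 2 * x

/-- The congruence conditions on `m` at 2 (`k(√-m)`, `k(√(3m))` are unramified and inert) and at 3
(`-m` is a nonsquare unit: 3 is inert in `k(√-m)` and ramified in `k(√(3m))`). -/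
structure Cls (m : O) : Prop where
  two : ∃ ν c : O, m + ν ^ 2 = 4 * c ∧ ∀ x : O, ¬ (2 : O) ∣ x ^ 2 + ν * x + c
  three : ∀ x : O, ¬ (3 : O) ∣ m - x ^ 2

/-- The `m` of the family. -/
structure Good (m : O) : Prop where
  pos1 : 0 < e1 m
  pos2 : 0 < e2 m
  sqf : Squarefree m
  cls : Cls m

/-- Hessian `(P, Q, R)` of `a x³ + 3 b x² y + 3 c x y² + d y³`, `M = 4PR - Q²`, and the cubic
covariant coefficient `X`: `X² + a² M = 4 P³`. -/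
def fP (a b c : O) : O := b ^ 2 - a * c

def fQ (a b c d : O) : O := b * c - a * d

def fR (b c d : O) : O := c ^ 2 - b * d

def fM (a b c d : O) : O := 4 * fP a b c * fR b c d - fQ a b c d ^ 2

def fX (a b c d : O) : O := 2 * b ^ 3 - 3 * a * b * c + a ^ 2 * d

/-- `m` has a form with small `P`. -/
def HasForm (m : O) : Prop :=
  ∃ a b c d : O, a ≠ 0 ∧ 0 < e1 (fP a b c) ∧ 0 < e2 (fP a b c) ∧
    4 * nm (fP a b c) ^ 2 ≤ nm m ∧ fM a b c d = m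

/-- quadruples. -/
abbrev V : Type := O × O × O × O

/-- normalised quadruples. -/
structure Nrm (N : ℝ) (v : V) : Prop where
  apos : 0 < e1 v.1
  bred : ∃ s t : ℝ, 0 ≤ s ∧ s ≤ 1 ∧ 0 ≤ t ∧ t ≤ 1 ∧
    e1 v.2.1 = e1 v.1 * (s + t * Real.goldenRatio) ∧
    e2 v.2.1 = e2 v.1 * (s + t * Real.goldenConj)
  xpos : 0 ≤ e1 (fX v.1 v.2.1 v.2.2.1 v.2.2.2)
  ppos1 : 0 < e1 (fP v.1 v.2.1 v.2.2.1)
  ppos2 : 0 < e2 (fP v.1 v.2.1 v.2.2.1)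
  pbal : Bal (e1 (fP v.1 v.2.1 v.2.2.1)) (e2 (fP v.1 v.2.1 v.2.2.1))
  mpos1 : 0 < e1 (fM v.1 v.2.1 v.2.2.1 v.2.2.2)
  mpos2 : 0 < e2 (fM v.1 v.2.1 v.2.2.1 v.2.2.2)
  mbal : Bal (e1 (fM v.1 v.2.1 v.2.2.1 v.2.2.2)) (e2 (fM v.1 v.2.1 v.2.2.1 v.2.2.2))
  small : 4 * (nm (fP v.1 v.2.1 v.2.2.1)) ^ 2 ≤ nm (fM v.1 v.2.1 v.2.2.1 v.2.2.2)
  mle : (nm (fM v.1 v.2.1 v.2.2.1 v.2.2.2) : ℝ) ≤ N
  cls2 : ∀ x y : O, (2 : O) ∣ fP v.1 v.2.1 v.2.2.1 * x ^ 2 +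
    fQ v.1 v.2.1 v.2.2.1 v.2.2.2 * x * y + fR v.2.1 v.2.2.1 v.2.2.2 * y ^ 2 →
    (2 : O) ∣ x ∧ (2 : O) ∣ y
  cls3 : ∀ x : O, ¬ (3 : O) ∣ fM v.1 v.2.1 v.2.2.1 v.2.2.2 - x ^ 2

/-! ## Module statements: the ring `O` -/

/-- OKR: `O` is a Euclidean domain and the ring of integers. -/
def OkrStmt : Prop :=
  IsDomain O ∧ IsPrincipalIdealRing O ∧ Prime (2 : O) ∧ Prime (3 : O) ∧
  (∀ a b : O, b ≠ 0 → ∃ q : O, |nm (a - b * q)| < |nm b|) ∧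
  (∀ x y : O, nm (x * y) = nm x * nm y) ∧
  (∀ x y : O, e1 (x * y) = e1 x * e1 y ∧ e2 (x * y) = e2 x * e2 y) ∧
  (∀ x : O, (nm x : ℝ) = e1 x * e2 x) ∧ (∀ x : O, nm x = 0 → x = 0) ∧
  (∀ x : O, IsUnit x ↔ nm x = 1 ∨ nm x = -1) ∧
  ∀ (k : Type) [Field k] [NumberField k] (f : k), finrank ℚ k = 2 → f ^ 2 = f + 1 →
    ∀ x : k, IsIntegral ℤ x → ∃ y : O, x = ev f y

/-- UNI: the units of `O` are `± φ^n`, `n` an integer. -/
def UniStmt : Prop :=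
  ∀ x : O, IsUnit x → ∃ n : ℕ, x = phi ^ n ∨ x = -phi ^ n ∨ x * phi ^ n = 1 ∨ x * phi ^ n = -1

/-- FLR: the floor of the Hilbert modular group of `ℚ(√5)` is at least `1/2`. -/
def FlrStmt : Prop :=
  ∀ z1 z2 y1 y2 : ℝ, 0 < y1 → 0 < y2 → y1 * y2 < 1 / 2 →
    ∃ x : O, ((z1 + e1 x) ^ 2 + y1 ^ 2) * ((z2 + e2 x) ^ 2 + y2 ^ 2) < 1

/-- QNM: normalisation of a quadruple. -/
def QnmStmt : Prop :=
  ∀ (N : ℝ) (m : O), Cls m → Bal (e1 m) (e2 m) → 0 < e1 m → 0 < e2 m → (nm m : ℝ) ≤ N →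
    HasForm m → ∃ v : V, Nrm N v ∧ fM v.1 v.2.1 v.2.2.1 v.2.2.2 = m

/-! ## Module statements: number theory -/

/-- APX: the completion of `k = ℚ(√5)` at 3. -/
def ApxStmt : Prop :=
  ∀ (k : Type) [Field k] [NumberField k] (f : k), finrank ℚ k = 2 → f ^ 2 = f + 1 →
    ∀ (ψ : k →+* Om),
      (∀ t : Om, InLoc ψ t → ∃ p q : ℚ_[3], t = algebraMap ℚ_[3] Om p + algebraMap ℚ_[3] Om q * ψ f) ∧
      (∀ t : Om, InLoc ψ t → ‖t‖ ≤ 1 → ∀ n : ℕ, ∃ x : O, ‖t - ψ (ev f x)‖ ≤ (3 : ℝ)⁻¹ ^ n) ∧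
      (∀ (y : O) (n : ℕ), ‖ψ (ev f y)‖ ≤ (3 : ℝ)⁻¹ ^ n → (3 : O) ^ n ∣ y)

/-- VAL: a prime of a quadratic extension `K` of `k = ℚ(√5)` above a prime element of `O`. -/
def ValStmt : Prop :=
  ∀ (k K : Type) [Field k] [NumberField k] [Field K] [NumberField K] [Algebra k K] (f : k),
    finrank ℚ k = 2 → f ^ 2 = f + 1 → finrank k K = 2 → ∀ p : O, Prime p →
    ∃ (q : HeightOneSpectrum (𝓞 K)) (e : ℕ), (e = 1 ∨ e = 2) ∧
      (∀ (x : O) (X : 𝓞 K), (X : K) = algebraMap k K (ev f x) → (X ∈ q.asIdeal ↔ p ∣ x)) ∧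
      ∀ x : O, x ≠ 0 → q.valuation K (algebraMap k K (ev f x)) =
        WithZero.exp (-((e * multiplicity p x : ℕ) : ℤ))

/-- CBE: elements of `O` all of whose multiplicities are divisible by 3. -/
def CbeStmt : Prop :=
  ∀ x : O, x ≠ 0 → (∀ p : O, Prime p → 3 ∣ multiplicity p x) → ∃ u y : O, IsUnit u ∧ x = u * y ^ 3

/-- LC2: local elements of a quadratic extension whose cube lies below lie below. -/
def Lc2Stmt : Prop :=
  ∀ (k K : Type) [Field k] [Field K] [Algebra k K] [FiniteDimensional k K] [IsGalois k K],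
    NoMu K → ∀ (φ : K →+* Om) (t : Om), InLoc φ t →
        InLoc (φ.comp (algebraMap k K)) (t ^ 3) → InLoc (φ.comp (algebraMap k K)) t

/-- NMK: no local cube root of unity in `K = k(√(3m))`. -/
def NmkStmt : Prop :=
  ∀ (k K : Type) [Field k] [NumberField k] [Field K] [NumberField K] [Algebra k K] (f : k) (r : K)
    (m : O), finrank ℚ k = 2 → f ^ 2 = f + 1 → finrank k K = 2 →
    r ^ 2 = algebraMap k K (3 * ev f m) → (∀ x : O, ¬ (3 : O) ∣ m - x ^ 2) → NoMu K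

/-- PLU: the Selmer type group of `k` vanishes, with the local condition in `K`. -/
def PluStmt : Prop :=
  ∀ (k K : Type) [Field k] [NumberField k] [Field K] [NumberField K] [Algebra k K] (f : k),
    finrank ℚ k = 2 → f ^ 2 = f + 1 → finrank k K = 2 → NoMu K →
    ∀ x y : O, x ≠ 0 → y ≠ 0 →
      (∀ p : O, Prime p → ¬ p ∣ 6 → (3 : ℤ) ∣ (multiplicity p x : ℤ) - multiplicity p y) →
      LocCube (algebraMap k K (ev f x / ev f y)) → ∃ t : k, t ^ 3 = ev f x / ev f y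

/-- The data of the reflection step: the cubic polynomial `x³ - 3 c² x - A`. -/
structure Bad (k : Type) [Field k] [NumberField k] (f : k) (m A c s₁ : O) : Prop where
  cop : IsCoprime A c
  three : ¬ (3 : O) ∣ c
  disc : A ^ 2 - 4 * c ^ 6 = 3 * m * s₁ ^ 2
  noroot : ∀ x : k, x ^ 3 - 3 * ev f c ^ 2 * x - ev f A ≠ 0
  loc : ∀ ψ : k →+* Om, ∃ x : Om, InLoc ψ x ∧ x ^ 3 - 3 * ψ (ev f c) ^ 2 * x = ψ (ev f A)

/-- MNS: a nontrivial element of the Selmer type group of `K` gives the cubic polynomial. -/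
def MnsStmt : Prop :=
  ∀ (k K : Type) [Field k] [NumberField k] [Field K] [NumberField K] [Algebra k K] (f : k) (r : K)
    (m : O), finrank ℚ k = 2 → f ^ 2 = f + 1 → finrank k K = 2 →
    r ^ 2 = algebraMap k K (3 * ev f m) → Good m → NoMu K →
    ∀ z : K, z ≠ 0 → ValCube z → LocCube z → (¬ ∃ t : K, t ^ 3 = z) →
      ∃ A c s₁ : O, Bad k f m A c s₁

/-- REF: the unramified cyclic cubic extension of `K' = k(√-m)`. -/
def RefStmt : Prop :=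
  ∀ (k K : Type) [Field k] [NumberField k] [Field K] [NumberField K] [Algebra k K] (f : k) (s : K)
    (m A c s₁ : O), finrank ℚ k = 2 → f ^ 2 = f + 1 → finrank k K = 2 →
    s ^ 2 = -algebraMap k K (ev f m) → Good m → Bad k f m A c s₁ →
    ∃ (L : Type) (_ : Field L) (_ : NumberField L) (_ : Algebra K L),
      IsGalois K L ∧ finrank K L = 3 ∧
      ∀ (P : Ideal (𝓞 L)) [P.IsPrime], P ≠ ⊥ → Algebra.IsUnramifiedAt (𝓞 K) P

/-- HIL: Hilbert's Theorem 94 for cyclic cubic extensions, with a rank condition. -/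
def HilStmt : Prop :=
  ∀ (K L : Type) [Field K] [NumberField K] [Field L] [NumberField L] [Algebra K L] [IsGalois K L],
    finrank K L = 3 → (∀ (P : Ideal (𝓞 L)) [P.IsPrime], P ≠ ⊥ → Algebra.IsUnramifiedAt (𝓞 K) P) →
    3 * Units.rank K < Units.rank L → (∀ x : K, x ^ 3 = 1 → x = 1) →
      3 ∣ Fintype.card (ClassGroup (𝓞 K))

/-- RNK: unit ranks (`1` and `5`) and no cube roots of unity in `K' = k(√-m)`. -/
def RnkStmt : Prop :=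
  ∀ (k K L : Type) [Field k] [NumberField k] [Field K] [NumberField K] [Algebra k K]
    [Field L] [NumberField L] [Algebra K L] (f : k) (s : K)
    (m : O), finrank ℚ k = 2 → f ^ 2 = f + 1 → finrank k K = 2 →
    s ^ 2 = -algebraMap k K (ev f m) → Good m → finrank K L = 3 →
    3 * Units.rank K < Units.rank L ∧ ∀ x : K, x ^ 3 = 1 → x = 1

/-- QUA: integers of `K' = k(√-m)`: conjugation, trace, norm. -/
def QuaStmt : Prop :=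
  ∀ (k K : Type) [Field k] [NumberField k] [Field K] [NumberField K] [Algebra k K] (f : k) (s : K)
    (m : O), finrank ℚ k = 2 → f ^ 2 = f + 1 → finrank k K = 2 →
    s ^ 2 = -algebraMap k K (ev f m) → Good m →
    ∃ c : K ≃ₐ[k] K, c s = -s ∧
      (∀ x : 𝓞 K, c (x : K) = x → ∃ y : O, (x : K) = algebraMap k K (ev f y)) ∧
      (∀ x : 𝓞 K, ∃ y : O, (x : K) - c x = algebraMap k K (ev f y) * s) ∧
      (∀ x : 𝓞 K, ∃ y : O, (x : K) * c x = algebraMap k K (ev f y) ∧ 0 ≤ e1 y ∧ 0 ≤ e2 y ∧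
        (nm y : ℤ) = (Ideal.absNorm (Ideal.span {x}) : ℕ)) ∧
      (∃ w : 𝓞 K, (w : K) - c w = s) ∧
      ∀ x : 𝓞 K, c (x : K) = -x → ∃ y : O, (x : K) = algebraMap k K (ev f y) * s

/-- IDL: an ideal whose cube is principal: generator `β` and basis `u, v` with `u` of minimal norm. -/
def IdlStmt : Prop :=
  ∀ (k K : Type) [Field k] [NumberField k] [Field K] [NumberField K] [Algebra k K] (f : k) (s : K)
    (m : O), finrank ℚ k = 2 → f ^ 2 = f + 1 → finrank k K = 2 →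
    s ^ 2 = -algebraMap k K (ev f m) → Good m → ∀ c : K ≃ₐ[k] K, c s = -s →
    ∀ I : Ideal (𝓞 K), I ≠ ⊥ → (I ^ 3).IsPrincipal →
      ∃ (β u v : 𝓞 K) (B : O), I ^ 3 = Ideal.span {β} ∧ 0 < e1 B ∧ 0 < e2 B ∧
        (β : K) * c β = algebraMap k K (ev f B) ^ 3 ∧ u ∈ I ∧ v ∈ I ∧ u ≠ 0 ∧
        (∀ x ∈ I, ∃ p q : O, (x : K) = algebraMap k K (ev f p) * u + algebraMap k K (ev f q) * v) ∧
        (u : K) * c v - (v : K) * c u = algebraMap k K (ev f B) * s ∧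
        (∀ x ∈ I, x ≠ 0 → Ideal.absNorm (Ideal.span {u}) ≤ Ideal.absNorm (Ideal.span {x})) ∧
        ((nm B : ℤ) = (Ideal.absNorm I : ℕ))

/-- CUB: the cubic form of the ideal. -/
def CubStmt : Prop :=
  ∀ (k K : Type) [Field k] [NumberField k] [Field K] [NumberField K] [Algebra k K] (f : k) (s : K)
    (m : O), finrank ℚ k = 2 → f ^ 2 = f + 1 → finrank k K = 2 →
    s ^ 2 = -algebraMap k K (ev f m) → Good m → ∀ c : K ≃ₐ[k] K, c s = -s →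
    (∀ x : 𝓞 K, ∃ y : O, (x : K) - c x = algebraMap k K (ev f y) * s) →
    ∀ (I : Ideal (𝓞 K)) (β u v : 𝓞 K) (B : O), I ^ 3 = Ideal.span {β} → B ≠ 0 →
      (β : K) * c β = algebraMap k K (ev f B) ^ 3 → u ∈ I → v ∈ I → u ≠ 0 →
      (u : K) * c v - (v : K) * c u = algebraMap k K (ev f B) * s →
      ∃ a₀ a₁ a₂ a₃ : O,
        (u : K) ^ 3 / β - c ((u : K) ^ 3 / β) = algebraMap k K (ev f a₀) * s ∧
        algebraMap k K (ev f (fP a₀ a₁ a₂)) * algebraMap k K (ev f B) = u * c u ∧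
        algebraMap k K (ev f (fQ a₀ a₁ a₂ a₃)) * algebraMap k K (ev f B) = u * c v + v * c u ∧
        algebraMap k K (ev f (fR a₁ a₂ a₃)) * algebraMap k K (ev f B) = v * c v ∧
        fM a₀ a₁ a₂ a₃ = m

/-- EIS: a class of order 3 gives a form. -/
def EisStmt : Prop :=
  ∀ (k K : Type) [Field k] [NumberField k] [Field K] [NumberField K] [Algebra k K] (f : k) (s : K)
    (m : O), finrank ℚ k = 2 → f ^ 2 = f + 1 → finrank k K = 2 →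
    s ^ 2 = -algebraMap k K (ev f m) → Good m → 3 ∣ Fintype.card (ClassGroup (𝓞 K)) → HasForm m

/-- KEY: no form, then the Selmer type group of `K = k(√(3m))` vanishes. -/
def KeyStmt : Prop :=
  ∀ (K : Type) [Field K] [NumberField K] (f r : K) (m : O), finrank ℚ K = 4 → f ^ 2 = f + 1 →
    r ^ 2 = 3 * ev f m → Good m → ¬ HasForm m → NoMu K ∧ W K

/-! ## Module statements: counting -/

/-- real coordinates: `(a₁,b₁,c₁,d₁)` and `(a₂,b₂,c₂,d₂)`. -/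
abbrev R8 : Type := (ℝ × ℝ × ℝ × ℝ) × (ℝ × ℝ × ℝ × ℝ)

noncomputable def emb (v : V) : R8 :=
  ((e1 v.1, e1 v.2.1, e1 v.2.2.1, e1 v.2.2.2), (e2 v.1, e2 v.2.1, e2 v.2.2.1, e2 v.2.2.2))

/-- reduction modulo `q`. -/
def resV (q : ℕ) (v : V) : (ZMod q × ZMod q) × (ZMod q × ZMod q) × (ZMod q × ZMod q) ×
    (ZMod q × ZMod q) :=
  ((v.1.re, v.1.im), (v.2.1.re, v.2.1.im), (v.2.2.1.re, v.2.2.1.im), (v.2.2.2.re, v.2.2.2.im))

/-- LTU: soft upper bound for lattice points in `t • B`, `B` compact, in given residue classes.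
The covolume of `emb V` is `√5 ^ 4 = 25`. -/
def LtuStmt : Prop :=
  ∀ (B : Set R8), IsCompact B → ∀ (q : ℕ) [NeZero q]
    (S : Finset ((ZMod q × ZMod q) × (ZMod q × ZMod q) × (ZMod q × ZMod q) × (ZMod q × ZMod q))),
    ∀ ε : ℝ, 0 < ε → ∃ t₀ : ℝ, 0 < t₀ ∧ ∀ t : ℝ, t₀ ≤ t →
      {v : V | resV q v ∈ S ∧ t⁻¹ • emb v ∈ B}.Finite ∧
      ({v : V | resV q v ∈ S ∧ t⁻¹ • emb v ∈ B}.ncard : ℝ) ≤
        ((S.card : ℝ) / (q : ℝ) ^ 8 * (volume B).toReal / 25 + ε) * t ^ 8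

/-- DNS: the residue classes modulo 6 of forms satisfying the conditions at 2 and 3. -/
def DnsStmt : Prop :=
  ∃ S : Finset ((ZMod 6 × ZMod 6) × (ZMod 6 × ZMod 6) × (ZMod 6 × ZMod 6) × (ZMod 6 × ZMod 6)),
    S.card ≤ 259200 ∧ ∀ a b c d : O,
      (∀ x y : O, (2 : O) ∣ fP a b c * x ^ 2 + fQ a b c d * x * y + fR b c d * y ^ 2 →
        (2 : O) ∣ x ∧ (2 : O) ∣ y) →
      (∀ x : O, ¬ (3 : O) ∣ fM a b c d - x ^ 2) → resV 6 (a, b, c, d) ∈ S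

/-- real versions of `P`, `M`, `X`. -/
def rP (w : ℝ × ℝ × ℝ × ℝ) : ℝ := w.2.1 ^ 2 - w.1 * w.2.2.1

def rM (w : ℝ × ℝ × ℝ × ℝ) : ℝ :=
  4 * (w.2.1 ^ 2 - w.1 * w.2.2.1) * (w.2.2.1 ^ 2 - w.2.1 * w.2.2.2) -
    (w.2.1 * w.2.2.1 - w.1 * w.2.2.2) ^ 2

def rX (w : ℝ × ℝ × ℝ × ℝ) : ℝ :=
  2 * w.2.1 ^ 3 - 3 * w.1 * w.2.1 * w.2.2.1 + w.1 ^ 2 * w.2.2.2

/-- CHV: push forward of Lebesgue measure on `ℝ⁴` (all `a ≠ 0`, both signs of `X`) under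
`(b/a, P, M)`: density `π / √M`. -/
def ChvStmt : Prop :=
  ∀ h : ℝ × ℝ × ℝ → ENNReal, Measurable h →
    (∫⁻ w : ℝ × ℝ × ℝ × ℝ in {w | 0 < w.1 ∧ 0 ≤ rX w ∧ 0 < rP w ∧ 0 < rM w},
        h (w.2.1 / w.1, rP w, rM w)) =
      ∫⁻ u : ℝ × ℝ × ℝ in {u | 0 < u.2.1 ∧ 0 < u.2.2},
        h u * ENNReal.ofReal (Real.pi / (4 * Real.sqrt u.2.2)) ∧
    (∫⁻ w : ℝ × ℝ × ℝ × ℝ in {w | w.1 ≠ 0 ∧ 0 < rP w ∧ 0 < rM w},
        h (w.2.1 / w.1, rP w, rM w)) =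
      ∫⁻ u : ℝ × ℝ × ℝ in {u | 0 < u.2.1 ∧ 0 < u.2.2},
        h u * ENNReal.ofReal (Real.pi / Real.sqrt u.2.2)

/-- the compact region. `C` bounds `|a|`. -/
def Reg (C η : ℝ) : Set R8 :=
  {w | 0 ≤ w.1.1 ∧ w.1.1 ≤ C ∧ |w.2.1| ≤ C ∧ η ≤ |w.1.1 * w.2.1| ∧
    (∃ s t : ℝ, 0 ≤ s ∧ s ≤ 1 ∧ 0 ≤ t ∧ t ≤ 1 ∧
      w.1.2.1 = w.1.1 * (s + t * Real.goldenRatio) ∧ w.2.2.1 = w.2.1 * (s + t * Real.goldenConj)) ∧
    0 ≤ rX w.1 ∧ Bal (rP w.1) (rP w.2) ∧ Bal (rM w.1) (rM w.2) ∧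
    4 * (rP w.1 * rP w.2) ^ 2 ≤ rM w.1 * rM w.2 ∧ rM w.1 * rM w.2 ≤ 1}

/-- VOL: the volume of the region. -/
def VolStmt : Prop :=
  ∀ C η : ℝ, 0 < η →
    volume (Reg C η) ≤ ENNReal.ofReal (Real.sqrt 5 * Real.pi ^ 2 * Real.log g ^ 2 / 2)

/-- CPT: compactness of the region. -/
def CptStmt : Prop := ∀ C η : ℝ, 0 < η → IsCompact (Reg C η)

/-- SCL: normalised quadruples with `|N a| ≥ η N^(1/4)` lie in `N^(1/8) • Reg`. -/
def SclStmt : Prop :=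
  ∃ C : ℝ, 0 < C ∧ ∀ (N η t : ℝ) (v : V), 0 < t → t ^ 8 = N → Nrm N v → 0 < η →
    η * t ^ 2 ≤ |(nm v.1 : ℝ)| → t⁻¹ • emb v ∈ Reg C η

/-- BOX: elements of `O` in a box. -/
def BoxStmt : Prop :=
  ∀ α₁ α₂ L₁ L₂ : ℝ, 0 ≤ L₁ → 0 ≤ L₂ →
    {x : O | α₁ ≤ e1 x ∧ e1 x ≤ α₁ + L₁ ∧ α₂ ≤ e2 x ∧ e2 x ≤ α₂ + L₂}.Finite ∧
    ({x : O | α₁ ≤ e1 x ∧ e1 x ≤ α₁ + L₁ ∧ α₂ ≤ e2 x ∧ e2 x ≤ α₂ + L₂}.ncard : ℝ) ≤ L₁ * L₂ + 1

/-- CUD: the number of `d` for given `a, b, c`. -/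
def CudStmt : Prop :=
  ∃ C : ℝ, 0 < C ∧ ∀ (t : ℝ) (a b c : O), 1 ≤ t →
    {d : O | Nrm (t ^ 8) (a, b, c, d)}.Finite ∧
    ({d : O | Nrm (t ^ 8) (a, b, c, d)}.ncard : ℝ) ≤
      C * (t ^ (16 / 3 : ℝ) * |(nm a : ℝ)| ^ (-(2 / 3) : ℝ) *
        |(nm (fP a b c) : ℝ)| ^ (-(1 / 2) : ℝ) + 1)

/-- CUC: the number of `(c, d)` for given `a, b`. -/
def CucStmt : Prop :=
  ∃ C : ℝ, 0 < C ∧ ∀ (t : ℝ) (a b : O), 1 ≤ t → a ≠ 0 →
    {w : O × O | Nrm (t ^ 8) (a, b, w.1, w.2)}.Finite ∧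
    ({w : O × O | Nrm (t ^ 8) (a, b, w.1, w.2)}.ncard : ℝ) ≤
      C * (t ^ (22 / 3 : ℝ) * |(nm a : ℝ)| ^ (-(5 / 3) : ℝ) + t ^ 4 / |(nm a : ℝ)|)

/-- SMA: a sum over `a`. -/
def SmaStmt : Prop :=
  ∃ C : ℝ, 0 < C ∧ ∀ (t η : ℝ) (T : Finset O), 1 ≤ t → 0 < η → η ≤ 1 →
    (∀ a ∈ T, a ≠ 0 ∧ |e1 a| ≤ 4 * t ∧ |e2 a| ≤ 4 * t ∧ |(nm a : ℝ)| ≤ η * t ^ 2) →
    ∑ a ∈ T, |(nm a : ℝ)| ^ (-(2 / 3) : ℝ) ≤ C * η ^ (1 / 4 : ℝ) * t ^ (2 / 3 : ℝ)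

/-- CUS: few normalised quadruples with `|N a|` small. -/
def CusStmt : Prop :=
  ∃ C : ℝ, 0 < C ∧ ∀ (N η t : ℝ), 1 ≤ t → t ^ 8 = N → 0 < η → η ≤ 1 →
    {v : V | Nrm N v ∧ |(nm v.1 : ℝ)| ≤ η * t ^ 2}.Finite ∧
    ({v : V | Nrm N v ∧ |(nm v.1 : ℝ)| ≤ η * t ^ 2}.ncard : ℝ) ≤
      C * (η ^ (1 / 4 : ℝ) * N + t ^ 7)

/-- BAD: the number of `m` that have a normalised quadruple. -/
def BadStmt : Prop :=
  ∀ ε : ℝ, 0 < ε → ∃ N₀ : ℝ, ∀ N : ℝ, N₀ ≤ N →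
    {m : O | ∃ v : V, Nrm N v ∧ fM v.1 v.2.1 v.2.2.1 v.2.2.2 = m}.Finite ∧
    ({m : O | ∃ v : V, Nrm N v ∧ fM v.1 v.2.1 v.2.2.1 v.2.2.2 = m}.ncard : ℝ) ≤
      (259200 / 6 ^ 8 * (Real.sqrt 5 * Real.pi ^ 2 * Real.log g ^ 2 / 50) + ε) * N

/-- the fundamental domain for `m` modulo squares of units. -/
def Fd (m : O) : Prop := 0 < e1 m ∧ 0 < e2 m ∧ e1 m < g ^ 2 * e2 m ∧ e2 m ≤ g ^ 2 * e1 m

/-- MCT: the number of `m` in the classes. -/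
def MctStmt : Prop :=
  (∀ N : ℝ, {m : O | Fd m ∧ Cls m ∧ (nm m : ℝ) ≤ N}.Finite) ∧
  (∃ C : ℝ, ∀ N : ℝ, 0 < N → ({m : O | Fd m ∧ Cls m ∧ (nm m : ℝ) ≤ N}.ncard : ℝ) ≤ C * N) ∧
  Tendsto (fun N : ℝ => ({m : O | Fd m ∧ Cls m ∧ (nm m : ℝ) ≤ N}.ncard : ℝ) / N) atTop
    (𝓝 (Real.log g / (12 * Real.sqrt 5)))

/-- SQF: squarefree `m`. -/
def SqfStmt : Prop :=
  ∀ ε : ℝ, 0 < ε → ∃ N₀ : ℝ, ∀ N : ℝ, N₀ ≤ N →
    (9 / 10 * (Real.log g / (12 * Real.sqrt 5)) - ε) * N ≤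
      ({m : O | Fd m ∧ Good m ∧ (nm m : ℝ) ≤ N}.ncard : ℝ)

/-- NUM: the numerical inequality. -/
def NumStmt : Prop :=
  259200 / 6 ^ 8 * (Real.sqrt 5 * Real.pi ^ 2 * Real.log g ^ 2 / 50) + 1 / 3000 <
    9 / 10 * (Real.log g / (12 * Real.sqrt 5))

/-! ## Module statements: the fields -/

/-- The field `ℚ(φ, √(3m)) ⊆ ℝ`. -/
noncomputable def Km (m : O) : IntermediateField ℚ ℝ :=
  IntermediateField.adjoin ℚ {Real.goldenRatio, Real.sqrt (3 * e1 m)}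

/-- FLD: properties of the field. -/
def FldStmt : Prop :=
  ∀ m : O, Good m → ∃ _ : NumberField (Km m), finrank ℚ (Km m) = 4 ∧ IsTotallyReal (Km m) ∧
    0 < discr (Km m) ∧ (discr (Km m) : ℝ) ≤ 225 * nm m ∧
    ∃ f r : Km m, f ^ 2 = f + 1 ∧ r ^ 2 = 3 * ev f m

/-- INJ: the field determines `m`. -/
def InjStmt : Prop := ∀ m m' : O, Good m → Good m' → Fd m → Fd m' → Km m = Km m' → m = m'

/-- GAL: few Galois fields. -/
def GalStmt : Prop :=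
  ∃ C : ℝ, ∀ N : ℝ, 1 ≤ N →
    ({m : O | Fd m ∧ Good m ∧ (nm m : ℝ) ≤ N ∧ IsGalois ℚ (Km m)}.ncard : ℝ) ≤ C * Real.sqrt N

/-- The fields counted in the final theorem. -/
def FieldSet (X : ℝ) : Set (IntermediateField ℚ ℝ) :=
  {K | ∃ _ : NumberField K, finrank ℚ K = 4 ∧ IsTotallyReal K ∧ ¬ IsGalois ℚ K ∧
    (discr K : ℝ) ≤ X ∧
    ∀ (E : Type) [Field E] [NumberField E] [Algebra K E] [IsGalois K E] (j : ℕ),
      finrank K E = 3 ^ j → UnrOut K E → LeopoldtAt E 3}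

/-- FIN: at least `X / 10^6` totally real non-Galois quartic fields `K ⊆ ℝ` of discriminant at most
`X` such that Leopoldt's conjecture at 3 holds for every Galois extension of `K` of 3-power degree
unramified outside 6 (in particular for `K`). -/
def FinStmt : Prop :=
  ∃ X₀ : ℝ, ∀ X : ℝ, X₀ ≤ X → (FieldSet X).Finite ∧ X / 10 ^ 6 ≤ ((FieldSet X).ncard : ℝ)

/-! ## Optional module statements: the octic Galois closure -/

/-- RQU: Leopoldt's conjecture at 3 for fields of unit rank at most one. -/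
def RquStmt : Prop :=
  ∀ (F : Type) [Field F] [NumberField F], Units.rank F ≤ 1 → LeopoldtAt F 3

/-- BIQ: Leopoldt's conjecture at 3 for a biquadratic extension, from three subfields. -/
def BiqStmt : Prop :=
  ∀ (k E₁ E₂ E₃ L : Type) [Field k] [NumberField k] [Field L] [NumberField L] [Algebra k L]
    [Field E₁] [NumberField E₁] [Field E₂] [NumberField E₂] [Field E₃] [NumberField E₃]
    [Algebra E₁ L] [Algebra E₂ L] [Algebra E₃ L] (a b : L ≃ₐ[k] L),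
    finrank k L = 4 → a ≠ 1 → b ≠ 1 → a ≠ b → a * a = 1 → b * b = 1 → a * b = b * a →
    (∀ x : L, a x = x → ∃ y : E₁, algebraMap E₁ L y = x) →
    (∀ x : L, b x = x → ∃ y : E₂, algebraMap E₂ L y = x) →
    (∀ x : L, a (b x) = x → ∃ y : E₃, algebraMap E₃ L y = x) →
    LeopoldtAt E₁ 3 → LeopoldtAt E₂ 3 → LeopoldtAt E₃ 3 → LeopoldtAt L 3

/-- CLO: the Galois closure of `Km m`. -/
def CloStmt : Prop :=
  ∀ m : O, Good m → ¬ HasForm m → ¬ IsGalois ℚ (Km m) →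
    ∃ (L : Type) (_ : Field L) (_ : NumberField L) (_ : Algebra (Km m) L),
      IsGalois ℚ L ∧ finrank (Km m) L = 2 ∧ LeopoldtAt L 3

end Pool.Agent.Leo4
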